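import Mathlib

set_option autoImplicit false

namespace Pool.Agent.Results.MP_fd0bc0_an.ProductNotCarleman

open MeasureTheory Filter Topology
open scoped InnerProductSpace ENNReal ComplexConjugate

/-- Lebesgue measure on the open interval `(a,b)`, endpoints possibly infinite. -/
noncomputable def mu (a b : EReal) : Measure ℝ :=
  volume.restrict {x : ℝ | a < (x : EReal) ∧ (x : EReal) < b}

/-- `L²(a,b)`, complex valued. -/
abbrev L2 (a b : EReal) : Type := Lp ℂ 2 (mu a b)

/-- Carleman kernels on `(a,b) × (a,b)`. -/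
def IsCarlemanKernel (a b : EReal) (k : ℝ × ℝ → ℂ) : Prop :=
  AEMeasurable k ((mu a b).prod (mu a b)) ∧
    ∀ᵐ x ∂(mu a b), MemLp (fun y => k (x, y)) 2 (mu a b)

/-- `k` represents the operator `A` on all of its domain. -/
def Represents {a b : EReal} (k : ℝ × ℝ → ℂ) (A : L2 a b →ₗ.[ℂ] L2 a b) : Prop :=
  ∀ f : A.domain, ∀ᵐ x ∂(mu a b),
    (A f : L2 a b) x = ∫ y, k (x, y) * (f : L2 a b) y ∂(mu a b)

/-- Carleman operators. -/
def IsCarleman {a b : EReal} (A : L2 a b →ₗ.[ℂ] L2 a b) : Prop :=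
  ∃ k, IsCarlemanKernel a b k ∧ Represents k A

/-- `P` is the product `AB`, with domain `{f ∈ D(B) : B f ∈ D(A)}`. -/
def IsProd {a b : EReal} (A B P : L2 a b →ₗ.[ℂ] L2 a b) : Prop :=
  ∀ f g, (f, g) ∈ P.graph ↔ ∃ h, (f, h) ∈ B.graph ∧ (h, g) ∈ A.graph

section general

variable {μ : Measure ℝ}

/-- The maximal operator `f ↦ (x ↦ ⟪K x, f⟫)`. -/
noncomputable def maxOp (K : ℝ → Lp ℂ 2 μ) : Lp ℂ 2 μ →ₗ.[ℂ] Lp ℂ 2 μ where
  domain :=
    { carrier := {f | MemLp (fun x => (⟪K x, f⟫_ℂ : ℂ)) 2 μ}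
      add_mem' := by
        intro f g hf hg
        have := MemLp.add hf hg
        simp only [Set.mem_ofPred_eq] at *
        refine (memLp_congr_ae (Eventually.of_forall fun x => ?_)).1 this
        simp [inner_add_right]
      zero_mem' := by
        simp
      smul_mem' := by
        intro c f hf
        have := MemLp.const_mul hf c
        simp only [Set.mem_ofPred_eq] at *
        refine (memLp_congr_ae (Eventually.of_forall fun x => ?_)).1 this
        simp [inner_smul_right] }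
  toFun :=
    { toFun := fun f => MemLp.toLp _ f.2
      map_add' := by
        intro f g
        rw [← MemLp.toLp_add]
        apply MemLp.toLp_congr
        exact Eventually.of_forall fun x => by simp [inner_add_right]
      map_smul' := by
        intro c f
        simp only [RingHom.id_apply]
        rw [← MemLp.toLp_const_smul]
        apply MemLp.toLp_congr
        exact Eventually.of_forall fun x => by simp [inner_smul_right] }

lemma mem_maxOp_domain (K : ℝ → Lp ℂ 2 μ) (f : Lp ℂ 2 μ) :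
    f ∈ (maxOp K).domain ↔ MemLp (fun x => (⟪K x, f⟫_ℂ : ℂ)) 2 μ := Iff.rfl

lemma maxOp_ae (K : ℝ → Lp ℂ 2 μ) (f : (maxOp K).domain) :
    ∀ᵐ x ∂μ, (maxOp K f : Lp ℂ 2 μ) x = ⟪K x, (f : Lp ℂ 2 μ)⟫_ℂ := by
  exact MemLp.coeFn_toLp f.2

lemma mem_maxOp_graph (K : ℝ → Lp ℂ 2 μ) (f g : Lp ℂ 2 μ) :
    (f, g) ∈ (maxOp K).graph ↔ ∀ᵐ x ∂μ, (g : ℝ → ℂ) x = ⟪K x, f⟫_ℂ := by
  rw [LinearPMap.mem_graph_iff]
  constructor
  · rintro ⟨y, hy, hg⟩
    simp only at hy hg
    rw [← hg, ← hy]
    exact maxOp_ae K y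
  · intro h
    have hf : f ∈ (maxOp K).domain := by
      rw [mem_maxOp_domain]
      exact (memLp_congr_ae h).1 (Lp.memLp g)
    refine ⟨⟨f, hf⟩, rfl, ?_⟩
    apply Lp.ext
    filter_upwards [h, maxOp_ae K ⟨f, hf⟩] with x h1 h2
    rw [h1, h2]

lemma maxOp_isClosed (K : ℝ → Lp ℂ 2 μ) : (maxOp K).IsClosed := by
  unfold LinearPMap.IsClosed
  rw [← isSeqClosed_iff_isClosed]
  intro u p hu hp
  obtain ⟨f, g⟩ := p
  have h1 : Tendsto (fun n => (u n).1) atTop (𝓝 f) := (Prod.tendsto_iff _ _).1 hp |>.1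
  have h2 : Tendsto (fun n => (u n).2) atTop (𝓝 g) := (Prod.tendsto_iff _ _).1 hp |>.2
  have h3 := tendstoInMeasure_of_tendsto_Lp h2
  obtain ⟨ns, hns, hlim⟩ := h3.exists_seq_tendsto_ae
  have hu' : ∀ n, ∀ᵐ x ∂μ, ((u n).2 : ℝ → ℂ) x = ⟪K x, (u n).1⟫_ℂ := by
    intro n
    exact (mem_maxOp_graph K _ _).1 (hu n)
  show (f, g) ∈ (maxOp K).graph
  rw [mem_maxOp_graph]
  filter_upwards [hlim, ae_all_iff.2 hu'] with x hx1 hx2
  have h4 : Tendsto (fun n => (⟪K x, (u (ns n)).1⟫_ℂ : ℂ)) atTop (𝓝 ⟪K x, f⟫_ℂ) :=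
    (tendsto_const_nhds.inner (h1.comp hns.tendsto_atTop))
  refine tendsto_nhds_unique hx1 ?_
  refine h4.congr fun n => ?_
  exact (hx2 (ns n)).symm

end general

section pieces

variable {μ : Measure ℝ} {N : ℝ → ℕ}

lemma measurableSet_piece (hN : Measurable N) (n : ℕ) : MeasurableSet (N ⁻¹' {n + 1}) :=
  hN (measurableSet_singleton _)

/-- orthonormal family living on the pieces -/
noncomputable def ee (hN : Measurable N) (hfin : ∀ n, μ (N ⁻¹' {n + 1}) ≠ ∞) (n : ℕ) :
    Lp ℂ 2 μ :=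
  indicatorConstLp 2 (measurableSet_piece hN n) (hfin n)
    (((√(μ.real (N ⁻¹' {n + 1})))⁻¹ : ℝ) : ℂ)

variable (hN : Measurable N) (hfin : ∀ n, μ (N ⁻¹' {n + 1}) ≠ ∞)
  (hpos : ∀ n, μ (N ⁻¹' {n + 1}) ≠ 0)

include hfin hpos in
lemma real_pos (n : ℕ) : 0 < μ.real (N ⁻¹' {n + 1}) :=
  ENNReal.toReal_pos (hpos n) (hfin n)

lemma ee_ae (n : ℕ) : ∀ᵐ x ∂μ, (ee hN hfin n : ℝ → ℂ) x =
    (N ⁻¹' {n + 1}).indicator (fun _ => (((√(μ.real (N ⁻¹' {n + 1})))⁻¹ : ℝ) : ℂ)) x :=
  indicatorConstLp_coeFn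

include hpos in
lemma ee_orthonormal : Orthonormal ℂ (ee hN hfin) := by
  classical
  rw [orthonormal_iff_ite]
  intro i j
  rw [L2.inner_def]
  split_ifs with hij
  · subst hij
    have h1 : ∀ᵐ x ∂μ, ⟪(ee hN hfin i : ℝ → ℂ) x, (ee hN hfin i : ℝ → ℂ) x⟫_ℂ =
        (N ⁻¹' {i + 1}).indicator (fun _ => (((μ.real (N ⁻¹' {i + 1})))⁻¹ : ℂ)) x := by
      filter_upwards [ee_ae hN hfin i] with x hx
      rw [hx]
      by_cases hxi : x ∈ N ⁻¹' {i + 1}
      · rw [Set.indicator_of_mem hxi, Set.indicator_of_mem hxi]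
        rw [RCLike.inner_apply, Complex.conj_ofReal, ← Complex.ofReal_mul, ← mul_inv,
          Real.mul_self_sqrt (real_pos hfin hpos i).le, Complex.ofReal_inv]
      · rw [Set.indicator_of_notMem hxi, Set.indicator_of_notMem hxi]
        simp
    rw [integral_congr_ae h1, integral_indicator_const _ (measurableSet_piece hN i)]
    have := (real_pos hfin hpos i).ne'
    rw [Complex.real_smul, mul_inv_cancel₀]
    exact_mod_cast this
  · have h1 : ∀ᵐ x ∂μ, ⟪(ee hN hfin i : ℝ → ℂ) x, (ee hN hfin j : ℝ → ℂ) x⟫_ℂ = 0 := by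
      filter_upwards [ee_ae hN hfin i, ee_ae hN hfin j] with x hx hy
      rw [hx, hy]
      by_cases hxi : x ∈ N ⁻¹' {i + 1}
      · have : x ∉ N ⁻¹' {j + 1} := by
          intro h
          simp only [Set.mem_preimage, Set.mem_singleton_iff] at hxi h
          omega
        rw [Set.indicator_of_notMem this]
        simp
      · rw [Set.indicator_of_notMem hxi]
        simp
    rw [integral_congr_ae h1]
    simp

/-- the vectors `K x` -/
noncomputable def KK (hN : Measurable N) (hfin : ∀ n, μ (N ⁻¹' {n + 1}) ≠ ∞) (x : ℝ) :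
    Lp ℂ 2 μ :=
  match N x with
  | 0 => 0
  | n + 1 => (((n + 1 : ℝ) * (√(μ.real (N ⁻¹' {n + 1})))⁻¹ : ℝ) : ℂ) • ee hN hfin n

lemma inner_KK (x : ℝ) (n : ℕ) (hx : N x = n + 1) (f : Lp ℂ 2 μ) :
    (⟪KK hN hfin x, f⟫_ℂ : ℂ) =
      (((n + 1 : ℝ) * (√(μ.real (N ⁻¹' {n + 1})))⁻¹ : ℝ) : ℂ) * ⟪ee hN hfin n, f⟫_ℂ := by
  unfold KK
  rw [hx]
  simp only
  rw [inner_smul_left, Complex.conj_ofReal]

lemma inner_KK_zero (x : ℝ) (hx : N x = 0) (f : Lp ℂ 2 μ) :
    (⟪KK hN hfin x, f⟫_ℂ : ℂ) = 0 := by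
  unfold KK
  rw [hx]
  simp only
  rw [inner_zero_left]

include hpos in
lemma maxOp_ee (n : ℕ) : (ee hN hfin n, ((n + 1 : ℝ) : ℂ) • ee hN hfin n) ∈
    (maxOp (KK hN hfin)).graph := by
  classical
  rw [mem_maxOp_graph]
  filter_upwards [Lp.coeFn_smul ((n + 1 : ℝ) : ℂ) (ee hN hfin n), ee_ae hN hfin n] with x h1 h2
  rw [h1, Pi.smul_apply, h2]
  have horth := orthonormal_iff_ite.1 (ee_orthonormal hN hfin hpos)
  rcases Nat.eq_zero_or_eq_succ_pred (N x) with h0 | h0
  · rw [inner_KK_zero hN hfin x h0]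
    rw [Set.indicator_of_notMem]
    · simp
    · simp [h0]
  · set m := (N x).pred with hm
    rw [inner_KK hN hfin x m h0, horth]
    by_cases hmn : m = n
    · rw [if_pos hmn, Set.indicator_of_mem]
      · rw [hmn]
        push_cast
        simp
      · simp [h0, hmn]
    · rw [if_neg hmn, Set.indicator_of_notMem]
      · simp
      · simp only [Set.mem_preimage, Set.mem_singleton_iff]
        omega

include hpos in
lemma maxOp_dense : Dense ((maxOp (KK hN hfin)).domain : Set (Lp ℂ 2 μ)) := by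
  have : ((maxOp (KK hN hfin)).domain)ᗮ = ⊥ := by
    rw [eq_bot_iff]
    intro f hf
    rw [Submodule.mem_orthogonal] at hf
    have h1 : ∀ n, (⟪ee hN hfin n, f⟫_ℂ : ℂ) = 0 := by
      intro n
      apply hf
      exact LinearPMap.mem_domain_of_mem_graph (maxOp_ee hN hfin hpos n)
    have h2 : f ∈ (maxOp (KK hN hfin)).domain := by
      rw [mem_maxOp_domain]
      have : (fun x => (⟪KK hN hfin x, f⟫_ℂ : ℂ)) = fun _ => 0 := by
        funext x
        rcases Nat.eq_zero_or_eq_succ_pred (N x) with h0 | h0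
        · exact inner_KK_zero hN hfin x h0 f
        · rw [inner_KK hN hfin x _ h0, h1, mul_zero]
      rw [this]
      exact MemLp.zero
    have h3 := hf f h2
    rw [inner_self_eq_zero] at h3
    simp [h3]
  exact Submodule.dense_iff_topologicalClosure_eq_top.2
    (Submodule.topologicalClosure_eq_top_iff.2 this)

/-- kernel of the maximal operator -/
noncomputable def kk (μ : Measure ℝ) (N : ℝ → ℕ) (p : ℝ × ℝ) : ℂ :=
  match N p.1 with
  | 0 => 0
  | n + 1 => if N p.2 = n + 1 then (((n + 1 : ℝ) * (μ.real (N ⁻¹' {n + 1}))⁻¹ : ℝ) : ℂ) else 0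

include hN in
lemma kk_measurable : Measurable (kk μ N) := by
  have : kk μ N = (fun q : ℕ × ℕ => (match q.1 with
      | 0 => 0
      | n + 1 => if q.2 = n + 1 then
          (((n + 1 : ℝ) * (μ.real (N ⁻¹' {n + 1}))⁻¹ : ℝ) : ℂ) else 0 : ℂ)) ∘
      (fun p : ℝ × ℝ => (N p.1, N p.2)) := by
    funext p
    rfl
  rw [this]
  exact (measurable_of_countable _).comp
    ((hN.comp measurable_fst).prodMk (hN.comp measurable_snd))

include hN hfin in
lemma kk_memLp (x : ℝ) : MemLp (fun y => kk μ N (x, y)) 2 μ := by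
  rcases Nat.eq_zero_or_eq_succ_pred (N x) with h0 | h0
  · have : (fun y => kk μ N (x, y)) = fun _ => 0 := by
      funext y
      unfold kk
      simp only [h0]
    rw [this]
    exact MemLp.zero
  · set m := (N x).pred with hm
    have : (fun y => kk μ N (x, y)) = (N ⁻¹' {m + 1}).indicator
        (fun _ => (((m + 1 : ℝ) * (μ.real (N ⁻¹' {m + 1}))⁻¹ : ℝ) : ℂ)) := by
      classical
      funext y
      unfold kk
      simp only [h0]
      by_cases hxi : y ∈ N ⁻¹' {m + 1}
      · have hxi' : N y = m + 1 := hxi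
        rw [Set.indicator_of_mem hxi, if_pos hxi']
      · have hxi' : ¬ N y = m + 1 := hxi
        rw [Set.indicator_of_notMem hxi, if_neg hxi']
    rw [this]
    exact memLp_indicator_const 2 (measurableSet_piece hN m) _ (Or.inr (hfin m))

lemma inner_ee (n : ℕ) (f : Lp ℂ 2 μ) : (⟪ee hN hfin n, f⟫_ℂ : ℂ) =
    ∫ y, (N ⁻¹' {n + 1}).indicator (fun _ => (((√(μ.real (N ⁻¹' {n + 1})))⁻¹ : ℝ) : ℂ)) y
      * (f : ℝ → ℂ) y ∂μ := by
  rw [L2.inner_def]
  apply integral_congr_ae
  filter_upwards [ee_ae hN hfin n] with x hx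
  rw [hx, RCLike.inner_apply]
  by_cases hxi : x ∈ N ⁻¹' {n + 1}
  · rw [Set.indicator_of_mem hxi, Complex.conj_ofReal, mul_comm]
  · rw [Set.indicator_of_notMem hxi]
    simp

include hpos in
lemma inner_KK_eq (x : ℝ) (f : Lp ℂ 2 μ) : (⟪KK hN hfin x, f⟫_ℂ : ℂ) =
    ∫ y, kk μ N (x, y) * (f : ℝ → ℂ) y ∂μ := by
  rcases Nat.eq_zero_or_eq_succ_pred (N x) with h0 | h0
  · rw [inner_KK_zero hN hfin x h0]
    have : (fun y => kk μ N (x, y) * (f : ℝ → ℂ) y) = fun _ => 0 := by
      funext y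
      unfold kk
      simp only [h0, zero_mul]
    rw [this]
    simp
  · set m := (N x).pred with hm
    rw [inner_KK hN hfin x m h0, inner_ee, ← integral_const_mul]
    congr 1
    funext y
    rw [← mul_assoc]
    congr 1
    unfold kk
    simp only [h0]
    have hp := real_pos hfin hpos m
    by_cases hxi : y ∈ N ⁻¹' {m + 1}
    · have hxi' : N y = m + 1 := hxi
      rw [Set.indicator_of_mem hxi, if_pos hxi', ← Complex.ofReal_mul]
      congr 1
      rw [mul_assoc, ← mul_inv, Real.mul_self_sqrt hp.le]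
    · have hxi' : ¬ N y = m + 1 := hxi
      rw [Set.indicator_of_notMem hxi, if_neg hxi', mul_zero]

end pieces

/-- composition of a bounded operator with a partially defined one -/
noncomputable def compOp {μ : Measure ℝ} (A : Lp ℂ 2 μ →L[ℂ] Lp ℂ 2 μ)
    (B : Lp ℂ 2 μ →ₗ.[ℂ] Lp ℂ 2 μ) : Lp ℂ 2 μ →ₗ.[ℂ] Lp ℂ 2 μ where
  domain := B.domain
  toFun := A.toLinearMap ∘ₗ B.toFun

/-- an everywhere defined bounded operator, as a partially defined one -/
noncomputable def full {a b : EReal} (A : L2 a b →L[ℂ] L2 a b) : L2 a b →ₗ.[ℂ] L2 a b :=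
  A.toLinearMap.toPMap ⊤

lemma mem_full_graph {a b : EReal} (A : L2 a b →L[ℂ] L2 a b) (f g : L2 a b) :
    (f, g) ∈ (full A).graph ↔ A f = g := by
  rw [LinearPMap.mem_graph_iff]
  constructor
  · rintro ⟨y, hy, hg⟩
    simp only at hy hg
    rw [← hg, ← hy]
    rfl
  · intro h
    exact ⟨⟨f, trivial⟩, rfl, h⟩

lemma isProd_compOp {a b : EReal} (A : L2 a b →L[ℂ] L2 a b) (B : L2 a b →ₗ.[ℂ] L2 a b) :
    IsProd (full A) B (compOp A B) := by
  intro f g
  rw [LinearPMap.mem_graph_iff]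
  constructor
  · rintro ⟨y, hy, hg⟩
    simp only at hy hg
    refine ⟨B y, ?_, ?_⟩
    · rw [← hy]
      exact B.mem_graph y
    · rw [mem_full_graph, ← hg]
      rfl
  · rintro ⟨h, hB, hA⟩
    rw [mem_full_graph] at hA
    rw [LinearPMap.mem_graph_iff] at hB
    obtain ⟨y, hy, hBy⟩ := hB
    simp only at hy hBy
    refine ⟨y, hy, ?_⟩
    show A (B y) = g
    rw [hBy, hA]

/-- an index function -/
lemma exists_index (a b : EReal) (hab : a < b) :
    ∃ N : ℝ → ℕ, Measurable N ∧ (∀ n, mu a b (N ⁻¹' {n + 1}) ≠ ∞) ∧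
      ∀ n, mu a b (N ⁻¹' {n + 1}) ≠ 0 := by
  obtain ⟨c, hac, hcb⟩ := EReal.lt_iff_exists_real_btwn.1 hab
  obtain ⟨d, hcd, hdb⟩ := EReal.lt_iff_exists_real_btwn.1 hcb
  have hcd' : c < d := by exact_mod_cast hcd
  classical
  have hmeas : MeasurableSet {x : ℝ | a < (x : EReal) ∧ (x : EReal) < b} :=
    (measurableSet_lt measurable_const measurable_coe_real_ereal).inter
      (measurableSet_lt measurable_coe_real_ereal measurable_const)
  refine ⟨fun x => if x ∈ Set.Ioo c d then ⌊(d - c) / (x - c)⌋₊ else 0, ?_, ?_, ?_⟩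
  · refine Measurable.ite measurableSet_Ioo ?_ measurable_const
    exact Nat.measurable_floor.comp (measurable_const.div (measurable_id.sub_const c))
  · intro n
    refine ne_top_of_le_ne_top (b := volume (Set.Ioo c d)) (by simp) ?_
    refine (Measure.restrict_apply_le _ _).trans (measure_mono ?_)
    intro x hx
    by_contra hxn
    simp only [Set.mem_preimage, Set.mem_singleton_iff] at hx
    rw [if_neg hxn] at hx
    omega
  · intro n
    have hsub : Set.Ioo (c + (d - c) / (n + 2)) (c + (d - c) / (n + 1)) ⊆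
        ((fun x => if x ∈ Set.Ioo c d then ⌊(d - c) / (x - c)⌋₊ else 0) ⁻¹' {n + 1}) ∩
          {x : ℝ | a < (x : EReal) ∧ (x : EReal) < b} := by
      intro x hx
      have h1 : 0 < (d - c) / ((n : ℝ) + 2) := by
        have : 0 < d - c := sub_pos.2 hcd'
        positivity
      have h2 : (d - c) / ((n : ℝ) + 1) ≤ d - c := by
        have : 0 < d - c := sub_pos.2 hcd'
        rw [div_le_iff₀ (by positivity)]
        nlinarith [(Nat.cast_nonneg n : (0 : ℝ) ≤ n)]
      have hx1 : x ∈ Set.Ioo c d := ⟨by linarith [hx.1], by linarith [hx.2]⟩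
      refine ⟨?_, ?_, ?_⟩
      · simp only [Set.mem_preimage, Set.mem_singleton_iff]
        rw [if_pos hx1, Nat.floor_eq_iff (div_nonneg (by linarith) (by linarith [hx1.1]))]
        have h3 : 0 < x - c := by linarith [hx1.1]
        constructor
        · rw [le_div_iff₀ h3]
          have := hx.2
          have h4 : x - c < (d - c) / (n + 1) := by linarith
          rw [lt_div_iff₀ (by positivity)] at h4
          push_cast
          linarith
        · rw [div_lt_iff₀ h3]
          have h4 : (d - c) / (n + 2) < x - c := by linarith [hx.1]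
          rw [div_lt_iff₀ (by positivity)] at h4
          push_cast
          linarith
      · exact hac.trans (by exact_mod_cast hx1.1)
      · exact lt_trans (by exact_mod_cast hx1.2) hdb
    intro h0
    rw [mu, Measure.restrict_apply' hmeas] at h0
    have h1 := measure_mono_null hsub h0
    rw [Real.volume_Ioo, ENNReal.ofReal_eq_zero] at h1
    have h2 : (d - c) / ((n : ℝ) + 2) < (d - c) / (n + 1) := by
      apply div_lt_div_of_pos_left (sub_pos.2 hcd') (by positivity) (by linarith)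
    linarith

/-- On every interval there are a bounded Carleman operator `A` and a densely defined closed
Carleman operator `B` whose product `AB` is not a Carleman operator. -/
theorem result (a b : EReal) (hab : a < b) :
    ∃ (A : L2 a b →L[ℂ] L2 a b) (B P : L2 a b →ₗ.[ℂ] L2 a b),
      IsCarleman (full A) ∧ IsCarleman B ∧ Dense (B.domain : Set (L2 a b)) ∧ B.IsClosed ∧
        IsProd (full A) B P ∧ ¬ IsCarleman P := by
  classical
  obtain ⟨N, hN, hfin, hpos⟩ := exists_index a b hab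
  have horth := ee_orthonormal hN hfin hpos
  -- the vector `g`
  have hsq : Memℓp (fun n : ℕ => (((n : ℝ) + 1)⁻¹ : ℂ)) 2 := by
    rw [memℓp_gen_iff (by norm_num)]
    have h1 : Summable fun n : ℕ => (1 / ((n : ℝ) + 1) ^ 2) := by
      have := (summable_nat_add_iff 1).2 (Real.summable_one_div_nat_pow.2 (le_refl 2))
      simpa using this
    refine h1.congr fun n => ?_
    rw [norm_inv]
    have : ‖(((n : ℝ) : ℂ) + 1)‖ = (n : ℝ) + 1 := by
      have : (((n : ℝ) : ℂ) + 1) = (((n : ℝ) + 1 : ℝ) : ℂ) := by push_cast; rfl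
      rw [this, Complex.norm_real, Real.norm_of_nonneg (by positivity)]
    rw [this]
    norm_num
  set av : lp (fun _ : ℕ => ℂ) 2 := ⟨_, hsq⟩ with hav
  set g : L2 a b := horth.orthogonalFamily.linearIsometry av with hg
  have hge : ∀ n, (⟪g, ee hN hfin n⟫_ℂ : ℂ) = ((n : ℂ) + 1)⁻¹ := by
    intro n
    have h1 : ee hN hfin n = horth.orthogonalFamily.linearIsometry
        (lp.single (E := fun _ : ℕ => ℂ) 2 n (1 : ℂ)) := by
      rw [OrthogonalFamily.linearIsometry_apply_single]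
      simp
    rw [hg, h1, LinearIsometry.inner_map_map, lp.inner_single_right]
    rw [hav]
    simp
  set h : L2 a b := ee hN hfin 0 with hh
  have hh0 : h ≠ 0 := horth.ne_zero 0
  set A : L2 a b →L[ℂ] L2 a b := (innerSL ℂ g).smulRight h with hA
  have hAf : ∀ f, A f = (⟪g, f⟫_ℂ : ℂ) • h := fun f => rfl
  refine ⟨A, maxOp (KK hN hfin), compOp A (maxOp (KK hN hfin)), ?_, ?_,
    maxOp_dense hN hfin hpos, maxOp_isClosed _, isProd_compOp _ _, ?_⟩
  · refine ⟨fun p => (h : ℝ → ℂ) p.1 * conj ((g : ℝ → ℂ) p.2), ⟨?_, ?_⟩, ?_⟩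
    · apply Measurable.aemeasurable
      exact ((Lp.stronglyMeasurable h).measurable.comp measurable_fst).mul
        (Complex.continuous_conj.measurable.comp
          ((Lp.stronglyMeasurable g).measurable.comp measurable_snd))
    · refine Eventually.of_forall fun x => ?_
      exact MemLp.const_mul (f := fun y => conj ((g : ℝ → ℂ) y)) (Lp.memLp g).star
        ((h : ℝ → ℂ) x)
    · intro f
      show ∀ᵐ x ∂(mu a b), (A (f : L2 a b) : L2 a b) x = _
      rw [hAf]
      filter_upwards [Lp.coeFn_smul (⟪g, (f : L2 a b)⟫_ℂ : ℂ) h] with x hx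
      rw [hx, Pi.smul_apply, L2.inner_def, smul_eq_mul, mul_comm, ← integral_const_mul]
      congr 1
      funext y
      rw [RCLike.inner_apply]
      ring
  · refine ⟨kk (mu a b) N, ⟨(kk_measurable hN).aemeasurable,
      Eventually.of_forall (kk_memLp hN hfin)⟩, ?_⟩
    intro f
    filter_upwards [maxOp_ae (KK hN hfin) f] with x hx
    rw [hx, inner_KK_eq hN hfin hpos]
  · rintro ⟨k, ⟨-, hk⟩, hrep⟩
    -- `P e_n = h`
    have hPe : ∀ n, ∀ᵐ x ∂(mu a b), (h : ℝ → ℂ) x =
        ∫ y, k (x, y) * (ee hN hfin n : ℝ → ℂ) y ∂(mu a b) := by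
      intro n
      have hgr := maxOp_ee hN hfin hpos n
      rw [LinearPMap.mem_graph_iff] at hgr
      obtain ⟨y, hy, hBy⟩ := hgr
      simp only at hy hBy
      have h1 := hrep y
      have h2 : (compOp A (maxOp (KK hN hfin))) y = h := by
        show A (maxOp (KK hN hfin) y) = h
        rw [hBy, hAf, inner_smul_right, hge]
        have : ((n : ℂ) + 1) ≠ 0 := by exact_mod_cast Nat.succ_ne_zero n
        push_cast
        rw [mul_inv_cancel₀ this, one_smul]
      rw [h2] at h1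
      filter_upwards [h1] with x hx
      rw [hx]
      congr 1
      funext z
      rw [← hy]
    have hx0 : ∃ᵐ x ∂(mu a b), (h : ℝ → ℂ) x ≠ 0 := by
      intro hcon
      apply hh0
      apply Lp.ext
      filter_upwards [hcon, Lp.coeFn_zero ℂ 2 (mu a b)] with x hx hx'
      rw [hx']
      simpa using hx
    obtain ⟨x, hx, hkx, hPx⟩ := (hx0.and_eventually (hk.and (ae_all_iff.2 hPe))).exists
    have hκ : MemLp (fun y => conj (k (x, y))) 2 (mu a b) := hkx.star
    set κ : L2 a b := hκ.toLp with hκdef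
    have h3 : ∀ n, (⟪κ, ee hN hfin n⟫_ℂ : ℂ) = (h : ℝ → ℂ) x := by
      intro n
      rw [hPx n, L2.inner_def]
      apply integral_congr_ae
      filter_upwards [hκ.coeFn_toLp] with y hy
      rw [hκdef, hy, RCLike.inner_apply, Complex.conj_conj, mul_comm]
    have h4 : Summable fun n => ‖(⟪ee hN hfin n, κ⟫_ℂ : ℂ)‖ ^ 2 :=
      horth.inner_products_summable κ
    have h5 : Summable fun _ : ℕ => ‖(h : ℝ → ℂ) x‖ ^ 2 := by
      refine h4.congr fun n => ?_
      rw [← h3 n, norm_inner_symm]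
    rw [summable_const_iff] at h5
    exact hx (by simpa using h5)

end Pool.Agent.Results.MP_fd0bc0_an.ProductNotCarleman
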